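import Pool.Agent.H28.PenroseEx2

set_option autoImplicit false

namespace Pool.Agent.Results.MP_5bb8bc_co.FourthMinimal

open Pool.Agent.H28.PenroseDefs

/-- There is a minimal non-alternating bridgeless binary matroid that is isomorphic to none of
`F^*`, `Pet`, `K_5^*`. -/
theorem result : ∃ M : BM, MinimalNonAlternating M ∧
    ¬ Iso M (dual fano) ∧ ¬ Iso M petersen ∧ ¬ Iso M (dual k5) := by
  obtain ⟨N, hN, hmin⟩ := Pool.Agent.H28.Penrose.exists_minimal _
    Pool.Agent.H28.PenroseEx2.bridgeless Pool.Agent.H28.PenroseEx2.nonalt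
  have h := (Pool.Agent.H28.PenroseEx2.cov.minor hN).cov2 hmin.1
  exact ⟨N, hmin, fun hi => Pool.Agent.H28.PenroseEx2.not_fano (h.iso hi),
    fun hi => Pool.Agent.H28.PenroseEx2.not_pet (h.iso hi),
    fun hi => Pool.Agent.H28.PenroseEx2.not_k5 (h.iso hi)⟩

end Pool.Agent.Results.MP_5bb8bc_co.FourthMinimal
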